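import Pool.Agent.Lib.MP_d5dfc1_co.ExB3
import Pool.Agent.Lib.MP_d5dfc1_co.ExExt

namespace Pool.Agent.Results.MP_d5dfc1_co.ExpUpper

/-- The points `p i` are the (distinct) vertices of their convex hull, the hull is
three-dimensional, and two of the points are adjacent in `G` exactly when the segment joining
them is a face of the hull. -/
def Realizes {n : ℕ} (G : SimpleGraph (Fin n)) (p : Fin n → Fin 3 → ℝ) : Prop :=
  ConvexIndependent ℝ p ∧ affineSpan ℝ (Set.range p) = ⊤ ∧
    ∀ i j, G.Adj i j ↔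
      i ≠ j ∧ IsExposed ℝ (convexHull ℝ (Set.range p)) (segment ℝ (p i) (p j))

open Pool.Agent.Lib.MP_d5dfc1_co Pool.Agent.Lib.MP_d5dfc1_co.Ex in
theorem result (n : ℕ) (G : SimpleGraph (Fin n)) (p : Fin n → Fin 3 → ℝ) (h : Realizes G p) :
    ∃ z : Fin n → Fin 3 → ℕ, (∀ i k, (z i k : ℝ) ≤ 2000 * n * (11 / 2) ^ n) ∧
      Realizes G fun i k => (z i k : ℝ) := by
  classical
  obtain ⟨hp, hs, hG⟩ := h
  have : Nonempty (Fin n) := by
    have : (Set.range p).Nonempty := (affineSpan_nonempty ℝ).1 (hs ▸ ⟨0, trivial⟩)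
    exact Set.range_nonempty_iff_nonempty.1 this
  obtain ⟨F, D, _, _, M, nn, c, st, O⟩ := extract hp hs
  have eu := euler (st.exa O)
  rw [Fintype.card_fin] at eu
  have nxi : Function.Injective M.nx := M.nxP.injective
  have n2 : ∀ d, M.nx (M.nx d) ≠ d := fun d e => M.hd_nx_ne d (by rw [← M.tl_nx, e])
  have f3 := fib_card M.lf M.nx nxi M.lf_nx M.lf_surj 3 fun d i a b => by
    obtain rfl | rfl : i = 1 ∨ i = 2 := by omega
    exacts [M.nx_ne d, n2 d]
  have n0 : (0 : ℝ) ≤ n := by positivity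
  obtain ⟨q, n', c', st', hq⟩ : ∃ (q : Fin n → V3) (n' : F → V3) (c' : F → ℝ), Strict M q n' c' ∧
      ∀ x k, (∃ z : ℤ, q x k = z) ∧ 0 ≤ q x k ∧ q x k ≤ 2000 * n * (11 / 2) ^ n := by
    by_cases t : ∃ d, M.nx (M.nx (M.nx d)) = d
    · obtain ⟨d, hd⟩ := t
      obtain ⟨q, n', c', a, b⟩ := caseA st O (exTri hd) (by rw [Fintype.card_fin]; omega)
      refine ⟨q, n', c', a, fun x k => ⟨(b x k).1, (b x k).2.1, (b x k).2.2.trans ?_⟩⟩
      have : (Fintype.card F : ℝ) ≤ 2000 * n := by exact_mod_cast (by omega : Fintype.card F ≤ 2000 * n)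
      rw [Fintype.card_fin]
      gcongr
    · have f4 := fib_card M.lf M.nx nxi M.lf_nx M.lf_surj 4 fun d i a b => by
        obtain rfl | rfl | rfl : i = 1 ∨ i = 2 ∨ i = 3 := by omega
        exacts [M.nx_ne d, n2 d, fun e => t ⟨d, e⟩]
      obtain ⟨d, hd⟩ : ∃ d, M.sg (M.sg (M.sg d)) = d := by
        by_contra u
        have := fib_card M.tl M.sg M.sg.injective M.tl_sg M.tl_surj 4 fun d i a b => by
          obtain rfl | rfl | rfl : i = 1 ∨ i = 2 ∨ i = 3 := by omega
          exacts [M.sg_ne d, M.sg_sg_ne d, fun e => u ⟨d, e⟩]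
        rw [Fintype.card_fin] at this
        omega
      obtain ⟨q, n', c', a, b⟩ := caseB st O (exTriV hd) (m := n) (by omega) eu
      refine ⟨q, n', c', a, fun x k => ⟨(b x k).1, (b x k).2.1, (b x k).2.2.trans ?_⟩⟩
      have h1 : (Fintype.card F : ℝ) ≤ n := by exact_mod_cast (by omega : Fintype.card F ≤ n)
      have h2 : (Fintype.card D : ℝ) ≤ 4 * n := by exact_mod_cast (by omega : Fintype.card D ≤ 4 * n)
      have h3 : ∀ m : ℕ, 1 + 3 * (m : ℝ) / 8 + 9 * m * (m - 1) / 128 ≤ (11 / 8) ^ m := fun m => by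
        induction m with
        | zero => simp
        | succ m ih =>
          have : (0 : ℝ) ≤ m * (m - 1) := by
            rcases m with _ | m
            · simp
            · push_cast; nlinarith [Nat.cast_nonneg (α := ℝ) m]
          rw [pow_succ]; push_cast; nlinarith
      calc _ ≤ 7 * n * (4 * n : ℝ) ^ 2 * 4 ^ n := by gcongr
        _ = n * 4 ^ n * (112 * n ^ 2) := by ring
        _ ≤ n * 4 ^ n * (2000 * (11 / 8) ^ n) := by
          refine mul_le_mul_of_nonneg_left ?_ (by positivity)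
          nlinarith [h3 n]
        _ = _ := by rw [show (11 / 2 : ℝ) = 4 * (11 / 8) by norm_num, mul_pow]; ring
  choose z hz using fun x k => (hq x k).1
  have e : (fun i k => ((z i k).toNat : ℝ)) = q := by
    ext i k
    have : 0 ≤ z i k := by exact_mod_cast hz i k ▸ (hq i k).2.1
    rw [hz, ← Int.cast_natCast, Int.toNat_of_nonneg this]
  refine ⟨fun i k => (z i k).toNat, fun i k => (congrFun (congrFun e i) k).trans_le (hq i k).2.2, ?_⟩
  rw [e]
  exact ⟨st'.final.1, st'.final.2.1, fun i j => by rw [hG, ← st.final.2.2, st'.final.2.2]⟩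

end Pool.Agent.Results.MP_d5dfc1_co.ExpUpper
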