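import Pool.Agent.Lib.MP_d5dfc1_co.GmFin
import Pool.Agent.Lib.MP_d5dfc1_co.ExExt

namespace Pool.Agent.Results.MP_d5dfc1_co.FewBigFacesPoly

/-- The points `p i` are the (distinct) vertices of their convex hull, the hull is
three-dimensional, and two of the points are adjacent in `G` exactly when the segment joining
them is a face of the hull. -/
def Realizes {n : ℕ} (G : SimpleGraph (Fin n)) (p : Fin n → Fin 3 → ℝ) : Prop :=
  ConvexIndependent ℝ p ∧ affineSpan ℝ (Set.range p) = ⊤ ∧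
    ∀ i j, G.Adj i j ↔
      i ≠ j ∧ IsExposed ℝ (convexHull ℝ (Set.range p)) (segment ℝ (p i) (p j))

/-- Every point lies on at most three proper faces of the hull that contain more than three of
the points. -/
def FewBigFaces {n : ℕ} (p : Fin n → Fin 3 → ℝ) : Prop :=
  ∀ i, {F | IsExposed ℝ (convexHull ℝ (Set.range p)) F ∧ F ≠ convexHull ℝ (Set.range p) ∧
    p i ∈ F ∧ 3 < {j | p j ∈ F}.ncard}.encard ≤ 3

open Pool.Agent.Lib.MP_d5dfc1_co Pool.Agent.Lib.MP_d5dfc1_co.Ex in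
theorem result : ∃ C : ℕ, ∀ (n : ℕ) (G : SimpleGraph (Fin n)) (p : Fin n → Fin 3 → ℝ),
    Realizes G p → FewBigFaces p →
      ∃ z : Fin n → Fin 3 → ℕ, (∀ i k, z i k ≤ n ^ C) ∧ Realizes G fun i k => (z i k : ℝ) := by
  classical
  obtain ⟨E, hE⟩ := Gm.wc_all
  obtain ⟨C, hC⟩ := Sq.grid_of E
  refine ⟨C, fun n G p ⟨hp, hs, hG⟩ hS => ?_⟩
  have : Nonempty (Fin n) := by
    have : (Set.range p).Nonempty := (affineSpan_nonempty ℝ).1 (hs ▸ ⟨0, trivial⟩)
    exact Set.range_nonempty_iff_nonempty.1 this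
  obtain ⟨F, D, _, _, M, nn, c, st, -⟩ := extract hp hs
  obtain ⟨p1, n1, c1, w⟩ := hE _ F D M p nn c st
  obtain ⟨q, n', c', st', hq⟩ := hC _ F D M p1 n1 c1
    (fun f => ∃ d, M.lf d = f ∧ M.nx (M.nx (M.nx d)) ≠ d) w
    (fun d k => by_contra fun e => k ⟨d, rfl, e⟩) fun x => Gm.few_of st x (hS x) _ fun _ k => k
  rw [Fintype.card_fin] at hq
  choose z hz using fun x k => (hq x k).1
  have e : (fun i k => ((z i k).toNat : ℝ)) = q := by
    ext i k
    have : 0 ≤ z i k := by exact_mod_cast hz i k ▸ (hq i k).2.1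
    rw [hz, ← Int.cast_natCast, Int.toNat_of_nonneg this]
  refine ⟨fun i k => (z i k).toNat, fun i k => ?_, ?_⟩
  · have := (congrFun (congrFun e i) k).trans_le (hq i k).2.2
    rwa [← Nat.cast_pow, Nat.cast_le] at this
  · rw [e]
    exact ⟨st'.final.1, st'.final.2.1, fun i j => by rw [hG, ← st.final.2.2, st'.final.2.2]⟩

end Pool.Agent.Results.MP_d5dfc1_co.FewBigFacesPoly
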