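import Pool.Agent.Lib.MP_d5dfc1_co.Base

namespace Pool.Agent.Results.MP_d5dfc1_co.QuadraticLower

/-- The points `p i` are the (distinct) vertices of their convex hull, and two of them are
adjacent in `G` exactly when the segment joining them is a face of the hull. -/
def Realizes {n : ℕ} (G : SimpleGraph (Fin n)) (p : Fin n → Fin 3 → ℝ) : Prop :=
  ConvexIndependent ℝ p ∧
    ∀ i j, G.Adj i j ↔
      i ≠ j ∧ IsExposed ℝ (convexHull ℝ (Set.range p)) (segment ℝ (p i) (p j))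

open Pool.Agent.Lib.MP_d5dfc1_co in
theorem result (n : ℕ) (hn : 4 ≤ n) :
    ∃ G : SimpleGraph (Fin n),
      (∃ p : Fin n → Fin 3 → ℝ, Realizes G p ∧ affineSpan ℝ (Set.range p) = ⊤) ∧
      ∀ (N : Fin 3 → ℕ) (p : Fin n → Fin 3 → ℝ), Realizes G p →
        (∀ i k, ∃ z : ℕ, z ≤ N k ∧ p i k = z) → n ^ 6 ≤ 10 ^ 26 * (N 0 * N 1 * N 2) := by
  obtain ⟨g, rfl⟩ : ∃ g, n = g + 4 := ⟨n - 4, by omega⟩
  refine ⟨⟨fun i j => i ≠ j ∧ IsExposed ℝ (convexHull ℝ (Set.range fun k : Fin (g + 4) => P g k))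
    (segment ℝ (P g i) (P g j)), ⟨fun i j h => ⟨h.1.symm, by rw [segment_symm]; exact h.2⟩⟩,
    ⟨fun i h => h.1 rfl⟩⟩, ⟨fun k => P g k, ⟨P_ci g, fun i j => Iff.rfl⟩, P_span g⟩, ?_⟩
  intro N p hp hz
  have := main g (fun k => (N k : ℝ)) p hp.1
    (fun i j hij => ⟨fun h => ((hp.2 i j).2 ⟨hij, h⟩).2, fun h => ((hp.2 i j).1 ⟨hij, h⟩).2⟩)
    (fun i k => by obtain ⟨z, -, h⟩ := hz i k; exact ⟨z, by simp [h]⟩)
    (fun i k => by
      obtain ⟨z, h1, h⟩ := hz i k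
      rw [h]; exact ⟨by positivity, by exact_mod_cast h1⟩)
  exact_mod_cast this

end Pool.Agent.Results.MP_d5dfc1_co.QuadraticLower
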